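import Pool.Agent.helper77.SK.Spec

set_option autoImplicit false

namespace Pool.Agent.SK

open Polynomial Finset

section
variable {p : ℕ} [Fact p.Prime]

lemma WI_natDegree_pol (S : Finset (ZMod p)) : (pol S).natDegree = S.card := by
  unfold pol
  rw [natDegree_prod_of_monic _ _ (fun s _ => monic_X_sub_C s)]
  simp

lemma WI_D1 (f : (ZMod p)[X]) : (D1 f).natDegree ≤ f.natDegree - 1 :=
  natDegree_derivative_le f

lemma WI_D2 (f : (ZMod p)[X]) : (D2 f).natDegree ≤ f.natDegree - 2 := by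
  unfold D2
  have h1 := natDegree_derivative_le (derivative f)
  have h2 := natDegree_derivative_le f
  omega

/-- the left side of the identity -/
noncomputable def WI_W (A B : Finset (ZMod p)) : (ZMod p)[X] :=
  C ((B.card : ZMod p) * (B.card + 1)) * (D2 (pol A) * pol B)
      - C (2 * ((A.card : ZMod p) * B.card - 1)) * (D1 (pol A) * D1 (pol B))
      + C ((A.card : ZMod p) * (A.card + 1)) * (pol A * D2 (pol B))

lemma WI_symm (A B : Finset (ZMod p)) : WI_W A B = WI_W B A := by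
  unfold WI_W
  rw [mul_comm (A.card : ZMod p) B.card]
  ring

lemma WI_eval (h1 : LOC_stmt) (h2 : TC_stmt) (A B : Finset (ZMod p)) (d : ℕ) (ε : ZMod p)
    (hE : Ex A B d ε) (a : ZMod p) (ha : a ∈ A) : (WI_W A B).eval a = 0 := by
  obtain ⟨α, P, u1, u2, u3, v1, v2, v3, hα, hP, a0, a1, a2, a3, a4, b0, b1, b2, b3, r1, r2, r3⟩ :=
    h1 p A B d ε hE a ha
  obtain ⟨eA0, eA1, eA2, eA3, eA4⟩ := h2 p (pol A) a
  obtain ⟨eB0, eB1, eB2, eB3, eB4⟩ := h2 p (pol B) a
  unfold WI_W
  simp only [eval_add, eval_sub, eval_mul, eval_C]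
  rw [eA0, eA1, eA2, eB0, eB1, eB2, a0, a1, a2, b0, b1, b2]
  unfold R1 at r1
  linear_combination (2 * α * P) * r1

lemma WI_swap (A B : Finset (ZMod p)) (d : ℕ) (ε : ZMod p) (hE : Ex A B d ε) :
    Ex B A d ((-1) ^ d * ε) := by
  obtain ⟨⟨he, hc⟩, hA, hB, hd, hp⟩ := hE
  refine ⟨⟨?_, ?_⟩, hB, hA, ?_, hp⟩
  · exact mul_ne_zero (pow_ne_zero _ (neg_ne_zero.mpr one_ne_zero)) he
  · intro b hb a ha
    rw [← hc a ha b hb, ← mul_pow]
    congr 1
    ring
  · rw [mul_comm]; exact hd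

lemma WI_disj (A B : Finset (ZMod p)) (d : ℕ) (ε : ZMod p) (hE : Ex A B d ε) :
    Disjoint A B := by
  rw [Finset.disjoint_left]
  intro x hxA hxB
  obtain ⟨⟨he, hc⟩, hA, hB, hd, hp⟩ := hE
  have h := hc x hxA x hxB
  have hd0 : d ≠ 0 := by
    intro h0
    rw [h0] at hd
    have : 2 * 2 ≤ A.card * B.card := Nat.mul_le_mul hA hB
    omega
  rw [sub_self, zero_pow hd0] at h
  exact he h.symm

lemma WI_deg (A B : Finset (ZMod p)) (hA : 2 ≤ A.card) (hB : 2 ≤ B.card) :
    (WI_W A B).natDegree ≤ A.card + B.card - 2 := by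
  have nA := WI_natDegree_pol A
  have nB := WI_natDegree_pol B
  have a1 := WI_D1 (pol A)
  have a2 := WI_D2 (pol A)
  have b1 := WI_D1 (pol B)
  have b2 := WI_D2 (pol B)
  rw [nA] at a1 a2
  rw [nB] at b1 b2
  unfold WI_W
  refine (natDegree_add_le _ _).trans (max_le ((natDegree_sub_le _ _).trans (max_le ?_ ?_)) ?_)
  · refine (natDegree_C_mul_le _ _).trans (natDegree_mul_le.trans ?_)
    rw [nB]; omega
  · refine (natDegree_C_mul_le _ _).trans (natDegree_mul_le.trans ?_)
    omega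
  · refine (natDegree_C_mul_le _ _).trans (natDegree_mul_le.trans ?_)
    rw [nA]; omega

end

theorem WI (h1 : LOC_stmt) (h2 : TC_stmt) : WI_stmt := by
  intro p _ A B d ε hE
  have hA : 2 ≤ A.card := hE.2.1
  have hB : 2 ≤ B.card := hE.2.2.1
  have h0 : WI_W A B = 0 := by
    apply eq_zero_of_degree_lt_of_eval_finset_eq_zero (A ∪ B)
    · refine lt_of_le_of_lt degree_le_natDegree ?_
      rw [Finset.card_union_of_disjoint (WI_disj A B d ε hE)]
      have := WI_deg A B hA hB
      exact_mod_cast (by omega : (WI_W A B).natDegree < A.card + B.card)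
    · intro x hx
      rcases Finset.mem_union.mp hx with hx | hx
      · exact WI_eval h1 h2 A B d ε hE x hx
      · rw [WI_symm]
        exact WI_eval h1 h2 B A d _ (WI_swap A B d ε hE) x hx
  exact h0

end Pool.Agent.SK
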